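import Pool.Agent.Helper72.AP.Defs

/-! Block AP-7 (MP_9ee088_an, project AP): growth at short times and the mean defects for ONE fixed noise.
Port of `Helper95/PV/Init.lean` and of the last third of `Helper95/PV/Nd.lean`. -/

set_option autoImplicit false
open MeasureTheory Real Set Filter Topology
open scoped ENNReal

namespace Pool.Agent.Helper63.AP

open Pool.Agent.Helper95.PV
open Pool.Agent.Helper72.AP
open Pool.Agent.Helper18.UC (T2 rep toT nn nn_nonneg nn_mul nn_one)
open Pool.Agent.Helper18.FD (NN rr pr cl uu lm Bump k1 k2 NN_pos NN_ge)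

variable {d : Dat}

/-- the derivative for the fixed noise -/
private noncomputable def vw (d : Dat) (ω : Om) (z : T2) : ℝ := vv d (ω, z)

private theorem meas_vw (hd : d.Ok) (ω : Om) : Measurable (vw d ω) :=
  (meas_vv hd).comp measurable_prodMk_left

private theorem vv_iter (d : Dat) (ω : Om) (z : T2) (j : ℕ) :
    vv d ((sk d)^[j] (ω, z)) = vw d ω ((Tw d ω)^[j] z) := by
  rw [sk_iter]
  rfl

/-- the profile -/
private noncomputable def ffw (d : Dat) (ω : Om) (z : T2) : ℝ := Real.log (max 1 (|vw d ω z| - 1))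

private theorem ff_meas (hd : d.Ok) (ω : Om) : Measurable (ffw d ω) := by
  unfold ffw
  exact Real.measurable_log.comp (measurable_const.max ((meas_vw hd ω).abs.sub_const 1))

private theorem ff_nonneg (d : Dat) (ω : Om) (z : T2) : 0 ≤ ffw d ω z :=
  Real.log_nonneg (le_max_left _ _)

private theorem vv_cube (hd : d.Ok) (ω : Om) (z : T2) : |vw d ω z| + 2 ≤ |d.a| ^ 3 := by
  unfold vw
  rw [← nn_mv]
  exact nn_mv_le hd (ω, z)

private theorem log_cube (d : Dat) : Real.log (|d.a| ^ 3) = 3 * Real.log |d.a| := by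
  rw [Real.log_pow]
  norm_num

private theorem ff_le (hd : d.Ok) (ω : Om) (z : T2) : ffw d ω z ≤ 3 * Real.log |d.a| := by
  have h1 := vv_cube hd ω z
  have h2 : 0 ≤ |vw d ω z| := abs_nonneg _
  rw [← log_cube]
  unfold ffw
  exact Real.log_le_log (lt_of_lt_of_le one_pos (le_max_left _ _)) (max_le (by linarith) (by linarith))

private theorem int_ff (hd : d.Ok) (ω : Om) (j : ℕ) :
    Integrable (fun z : T2 => ffw d ω ((Tw d ω)^[j] z)) volume := by
  refine Integrable.mono' (integrable_const (3 * Real.log |d.a|))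
    ((ff_meas hd ω).comp ((Tw_mp hd ω).iterate j).measurable).aestronglyMeasurable
    (Filter.Eventually.of_forall fun z => ?_)
  rw [Real.norm_eq_abs, abs_of_nonneg (ff_nonneg _ _ _)]
  exact ff_le hd ω _

private theorem int_ff_eq (hd : d.Ok) (ω : Om) (j : ℕ) :
    ∫ z : T2, ffw d ω ((Tw d ω)^[j] z) = ∫ z : T2, ffw d ω z := by
  have h1 := (Tw_mp hd ω).iterate j
  have h2 := integral_map (μ := (volume : Measure T2)) (φ := (Tw d ω)^[j]) h1.measurable.aemeasurable
    (f := ffw d ω) (ff_meas hd ω).aestronglyMeasurable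
  rw [h1.map_eq] at h2
  exact h2.symm

private theorem int_nn (hd : d.Ok) (ω : Om) (n : ℕ) :
    Integrable (fun z : T2 => Real.log (nn (Mm d n (ω, z)))) volume := by
  refine Integrable.of_bound ((meas_nn hd n).comp measurable_prodMk_left).log.aestronglyMeasurable
    (Real.log 2 + n * (3 * Real.log |d.a|)) (Eventually.of_forall fun z => ?_)
  obtain ⟨h1, h2⟩ := log_nn_bd hd n (ω, z)
  rw [Real.norm_eq_abs, abs_of_nonneg h1]
  exact h2

private theorem init1W (hd : d.Ok) (ω : Om) (m : ℕ) :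
    m * ((∫ z : T2, Real.log (max 1 (|vw d ω z| - 1))) -
      m * (3 * Real.log |d.a|) * (volume : Measure T2).real {z | |vw d ω z| < 2}) ≤ un d ω m := by
  have ha := hd.ha
  have hl : 0 ≤ 3 * Real.log |d.a| := mul_nonneg (by norm_num) (Real.log_nonneg (by linarith))
  have e : {z : T2 | ∃ j < m, |vw d ω ((Tw d ω)^[j] z)| < 2} =
      ⋃ j ∈ Finset.range m, {z : T2 | |vw d ω ((Tw d ω)^[j] z)| < 2} := by
    ext z
    simp
  have hB : MeasurableSet {z : T2 | ∃ j < m, |vw d ω ((Tw d ω)^[j] z)| < 2} := by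
    rw [e]
    refine Finset.measurableSet_biUnion _ fun j _ => ?_
    exact measurableSet_lt (((meas_vw hd ω).comp ((Tw_mp hd ω).iterate j).measurable).abs)
      measurable_const
  have hmB : (volume : Measure T2).real {z : T2 | ∃ j < m, |vw d ω ((Tw d ω)^[j] z)| < 2} ≤
      m * (volume : Measure T2).real {z | |vw d ω z| < 2} := by
    rw [e]
    refine (measureReal_biUnion_finset_le _ _).trans ?_
    have h1 : ∀ j ∈ Finset.range m, (volume : Measure T2).real {z : T2 | |vw d ω ((Tw d ω)^[j] z)| < 2} =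
        (volume : Measure T2).real {z | |vw d ω z| < 2} := by
      intro j _
      have hS : MeasurableSet {z : T2 | |vw d ω z| < 2} :=
        measurableSet_lt (meas_vw hd ω).abs measurable_const
      have h2 := ((Tw_mp hd ω).iterate j).measureReal_preimage hS.nullMeasurableSet
      exact h2
    rw [Finset.sum_congr rfl h1, Finset.sum_const, Finset.card_range, nsmul_eq_mul]
  set S : Set T2 := {z : T2 | ∃ j < m, |vw d ω ((Tw d ω)^[j] z)| < 2} with hS
  have hpt : ∀ z : T2, (∑ j ∈ Finset.range m, ffw d ω ((Tw d ω)^[j] z)) -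
      S.indicator (fun _ => (m : ℝ) * (3 * Real.log |d.a|)) z ≤ Real.log (nn (Mm d m (ω, z))) := by
    intro z
    by_cases hpS : z ∈ S
    · rw [indicator_of_mem hpS]
      have h1 : ∑ j ∈ Finset.range m, ffw d ω ((Tw d ω)^[j] z) ≤ m * (3 * Real.log |d.a|) := by
        refine (Finset.sum_le_sum fun j _ => ff_le hd ω _).trans ?_
        rw [Finset.sum_const, Finset.card_range, nsmul_eq_mul]
      have h2 := (log_nn_bd hd m (ω, z)).1
      linarith
    · rw [indicator_of_notMem hpS, sub_zero]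
      have h0 : ∀ j < m, 2 ≤ |vv d ((sk d)^[j] (ω, z))| := by
        intro j hj
        rw [vv_iter]
        by_contra h
        exact hpS ⟨j, hj, not_le.1 h⟩
      refine le_trans (le_of_eq ?_) (cone m (ω, z) h0)
      refine Finset.sum_congr rfl fun j hj => ?_
      have h1 := h0 j (Finset.mem_range.1 hj)
      rw [vv_iter] at h1 ⊢
      unfold ffw
      rw [max_eq_right]
      linarith
  have i1 : Integrable (fun z : T2 => ∑ j ∈ Finset.range m, ffw d ω ((Tw d ω)^[j] z)) volume :=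
    integrable_finsetSum _ fun j _ => int_ff hd ω j
  have i3 : Integrable (S.indicator (fun _ => (m : ℝ) * (3 * Real.log |d.a|))) volume :=
    (integrable_const _).indicator hB
  have h1 : ∫ z : T2, ((∑ j ∈ Finset.range m, ffw d ω ((Tw d ω)^[j] z)) -
      S.indicator (fun _ => (m : ℝ) * (3 * Real.log |d.a|)) z) ≤ un d ω m :=
    integral_mono (i1.sub i3) (int_nn hd ω m) hpt
  rw [integral_sub i1 i3, integral_finsetSum _ fun j _ => int_ff hd ω j,
    integral_indicator_const _ hB, Finset.sum_congr rfl fun j _ => int_ff_eq hd ω j,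
    Finset.sum_const, Finset.card_range, nsmul_eq_mul, smul_eq_mul] at h1
  have h2 : ∫ z : T2, ffw d ω z = ∫ z : T2, Real.log (max 1 (|vw d ω z| - 1)) := rfl
  rw [h2] at h1
  have h3 : (volume : Measure T2).real S * ((m : ℝ) * (3 * Real.log |d.a|)) ≤
      m * (volume : Measure T2).real {z | |vw d ω z| < 2} * ((m : ℝ) * (3 * Real.log |d.a|)) :=
    mul_le_mul_of_nonneg_right hmB (mul_nonneg (Nat.cast_nonneg m) hl)
  have h4 : (m : ℝ) * ((∫ z : T2, Real.log (max 1 (|vw d ω z| - 1))) -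
      m * (3 * Real.log |d.a|) * (volume : Measure T2).real {z | |vw d ω z| < 2}) =
      m * (∫ z : T2, Real.log (max 1 (|vw d ω z| - 1))) -
      m * (volume : Measure T2).real {z | |vw d ω z| < 2} * ((m : ℝ) * (3 * Real.log |d.a|)) := by ring
  rw [h4]
  linarith

/-- the position in the unit interval -/
private theorem pos_mp : MeasurePreserving (fun z : T2 => rp z.1) volume (volume.restrict (Ico (0 : ℝ) 1)) := by
  have hp : IsProbabilityMeasure (volume : Measure UnitAddCircle) := by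
    constructor
    rw [UnitAddCircle.measure_univ]
  have h0 : MeasurePreserving (Prod.fst : T2 → UnitAddCircle) volume volume :=
    measurePreserving_fst (μ := (volume : Measure UnitAddCircle)) (ν := (volume : Measure UnitAddCircle))
  have h1 : MeasurePreserving rp volume (volume.restrict (Ico (0 : ℝ) 1)) := ⟨meas_rp, law_rp⟩
  exact h1.comp h0

private theorem meas_p2 (hd : d.Ok) (ω : Om) : Measurable fun x : ℝ => d.p2 ω x :=
  (p_meas hd).2.comp measurable_prodMk_left

/-- nondegeneracy as a bound for the restricted measure -/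
private theorem nw_restr {ω : Om} {B b : ℝ} (hn : Nw d ω B b) {δ : ℝ} (hδ : 0 < δ) :
    (volume.restrict (Ico (0 : ℝ) 1)) {x : ℝ | |d.p2 ω x| < δ} ≤ ENNReal.ofReal (B * δ ^ b) := by
  refine le_trans (le_of_eq ?_) (hn δ hδ)
  rw [Measure.restrict_apply' measurableSet_Ico]
  congr 1
  ext x
  simp only [mem_ofPred_eq, mem_inter_iff]
  tauto

private theorem small_vvW (hd : d.Ok) {ω : Om} {B b : ℝ} (hn : Nw d ω B b) {T : ℝ} (hT : 0 ≤ T) :
    (volume : Measure T2) {z | |vw d ω z| < T} ≤ ENNReal.ofReal (B * ((T + 2) / |d.a|) ^ b) := by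
  have ha0 : 0 < |d.a| := by linarith [hd.ha]
  have hδ : 0 < (T + 2) / |d.a| := div_pos (by linarith) ha0
  have hS : MeasurableSet {x : ℝ | |d.p2 ω x| < (T + 2) / |d.a|} :=
    measurableSet_lt (meas_p2 hd ω).abs measurable_const
  refine le_trans ?_ (nw_restr hn hδ)
  rw [← pos_mp.map_eq, Measure.map_apply pos_mp.measurable hS]
  refine measure_mono fun z hz => ?_
  have h1 : |2 + d.a * d.p2 ω (rp z.1)| < T := hz
  show |d.p2 ω (rp z.1)| < (T + 2) / |d.a|
  rw [lt_div_iff₀ ha0, mul_comm, ← abs_mul]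
  have h2 : |d.a * d.p2 ω (rp z.1)| ≤ |2 + d.a * d.p2 ω (rp z.1)| + |(-2 : ℝ)| := by
    have h3 := abs_add_le (2 + d.a * d.p2 ω (rp z.1)) (-2)
    have h4 : 2 + d.a * d.p2 ω (rp z.1) + -2 = d.a * d.p2 ω (rp z.1) := by ring
    rwa [h4] at h3
  have h5 : |(-2 : ℝ)| = 2 := by norm_num
  rw [h5] at h2
  linarith

private theorem small_realW (hd : d.Ok) {ω : Om} {B b : ℝ} (hB : 1 ≤ B) (hn : Nw d ω B b) {T : ℝ}
    (hT : 0 ≤ T) : (volume : Measure T2).real {z | |vw d ω z| < T} ≤ B * ((T + 2) / |d.a|) ^ b := by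
  have ha0 : 0 < |d.a| := by linarith [hd.ha]
  refine ENNReal.toReal_le_of_le_ofReal ?_ (small_vvW hd hn hT)
  have : 0 ≤ ((T + 2) / |d.a|) ^ b := Real.rpow_nonneg (div_nonneg (by linarith) ha0.le) _
  exact mul_nonneg (by linarith) this

private theorem hi_loW (hd : d.Ok) (ω : Om) {T : ℝ} (hT : 4 ≤ T) (hTa : T + 2 ≤ |d.a|) :
    ∫ z : T2, Real.log (|vw d ω z| + 2) ≤ (∫ z : T2, Real.log (max 1 (|vw d ω z| - 1))) + 4 / T +
      Real.log |d.a| * (volume : Measure T2).real {z | |vw d ω z| < T} := by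
  have ha := hd.ha
  have hS : MeasurableSet {z : T2 | |vw d ω z| < T} := measurableSet_lt (meas_vw hd ω).abs measurable_const
  have i0 : Integrable (fun z : T2 => Real.log (|vw d ω z| + 2)) volume := by
    refine Integrable.mono' (integrable_const (3 * Real.log |d.a|))
      (Real.measurable_log.comp ((meas_vw hd ω).abs.add_const 2)).aestronglyMeasurable
      (Filter.Eventually.of_forall fun z => ?_)
    have h0 : 0 ≤ |vw d ω z| := abs_nonneg _
    rw [Real.norm_eq_abs, abs_of_nonneg (Real.log_nonneg (by linarith)), ← log_cube]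
    exact Real.log_le_log (by linarith) (vv_cube hd ω z)
  have i1 : Integrable (fun z : T2 => Real.log (max 1 (|vw d ω z| - 1))) volume := int_ff hd ω 0
  have i2 : Integrable ({z : T2 | |vw d ω z| < T}.indicator (fun _ => Real.log |d.a|)) volume :=
    (integrable_const _).indicator hS
  have hpt : ∀ z : T2, Real.log (|vw d ω z| + 2) ≤ Real.log (max 1 (|vw d ω z| - 1)) + 4 / T +
      {z : T2 | |vw d ω z| < T}.indicator (fun _ => Real.log |d.a|) z := by
    intro z
    have h0 : 0 ≤ |vw d ω z| := abs_nonneg _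
    have hT0 : 0 < 4 / T := by positivity
    by_cases h : |vw d ω z| < T
    · have hm : z ∈ {z : T2 | |vw d ω z| < T} := h
      rw [indicator_of_mem hm]
      have h1 : Real.log (|vw d ω z| + 2) ≤ Real.log |d.a| :=
        Real.log_le_log (by linarith) (by linarith)
      have h2 : 0 ≤ Real.log (max 1 (|vw d ω z| - 1)) := Real.log_nonneg (le_max_left _ _)
      linarith
    · have hm : z ∉ {z : T2 | |vw d ω z| < T} := h
      rw [indicator_of_notMem hm, add_zero]
      push Not at h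
      rw [max_eq_right (by linarith)]
      have h1 : (0 : ℝ) < |vw d ω z| - 1 := by linarith
      have h2 : |vw d ω z| + 2 = (|vw d ω z| - 1) * (1 + 3 / (|vw d ω z| - 1)) := by
        field_simp
        ring
      have h3 : (0 : ℝ) < 1 + 3 / (|vw d ω z| - 1) := by positivity
      rw [h2, Real.log_mul h1.ne' h3.ne']
      have h4 : Real.log (1 + 3 / (|vw d ω z| - 1)) ≤ 3 / (|vw d ω z| - 1) := by
        have := Real.log_le_sub_one_of_pos h3
        linarith
      have h5 : 3 / (|vw d ω z| - 1) ≤ 4 / T := by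
        rw [div_le_div_iff₀ h1 (by linarith)]
        linarith
      linarith
  have h1 := integral_mono i0 ((i1.add (integrable_const (4 / T))).add i2) hpt
  have h2 : ∫ z : T2, (Real.log (max 1 (|vw d ω z| - 1)) + 4 / T +
      {z : T2 | |vw d ω z| < T}.indicator (fun _ => Real.log |d.a|) z) =
      (∫ z : T2, Real.log (max 1 (|vw d ω z| - 1))) + 4 / T +
      Real.log |d.a| * (volume : Measure T2).real {z | |vw d ω z| < T} := by
    have i12 : Integrable (fun z : T2 => Real.log (max 1 (|vw d ω z| - 1)) + 4 / T) volume :=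
      i1.add (integrable_const (4 / T))
    rw [integral_add i12 i2, integral_add i1 (integrable_const _),
      integral_indicator_const _ hS, integral_const, probReal_univ, one_smul, smul_eq_mul,
      mul_comm ((volume : Measure T2).real _)]
  rw [← h2]
  exact h1

private theorem Hi_eq (hd : d.Ok) (ω : Om) : Hi d ω = ∫ z : T2, Real.log (|vw d ω z| + 2) := by
  rw [← un_one hd ω]
  unfold un
  refine integral_congr_ae (Eventually.of_forall fun z => ?_)
  change Real.log (nn (Mm d 1 (ω, z))) = Real.log (|vv d (ω, z)| + 2)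
  rw [Mm_one, nn_mv]

/-- B7: growth at short times for one noise. -/
theorem initW {d : Dat} (hd : d.Ok) {B b : ℝ} (hB : 1 ≤ B) (hb : 0 < b) (hb1 : b ≤ 1) {ω : Om} (hn : Nw d ω B b)
    {m : ℕ} (hm : (m : ℝ) ≤ |d.a| ^ (b / 8)) :
    m * (Hi d ω - (4 + 56 * B / b) * |d.a| ^ (-(b / 8))) ≤ un d ω m := by
  have ha := hd.ha
  have ha0 : 0 < |d.a| := by linarith
  have ha1 : 1 ≤ |d.a| := by linarith
  set X : ℝ := |d.a| with hX
  rw [Hi_eq hd ω]
  have hi1 := init1W hd ω m
  rw [← hX] at hi1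
  -- the logarithm
  have hlog0 : 0 ≤ Real.log X := Real.log_nonneg ha1
  have hlog : Real.log X ≤ 4 / b * X ^ (b / 4) := by
    have h5 := Real.log_le_rpow_div (x := X) (ε := b / 4) ha0.le (by positivity)
    refine h5.trans (le_of_eq ?_)
    field_simp
  -- T
  have hT2 : X ^ (1 / 2 : ℝ) * X ^ (1 / 2 : ℝ) = X := by
    rw [← Real.rpow_add ha0]
    norm_num
  have hT10 : 10 ≤ X ^ (1 / 2 : ℝ) := by
    have h0 : 0 ≤ X ^ (1 / 2 : ℝ) := Real.rpow_nonneg ha0.le _
    nlinarith
  set T : ℝ := X ^ (1 / 2 : ℝ) with hTdef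
  have hTX : T + 2 ≤ X := by nlinarith
  have hhl := hi_loW hd ω (T := T) (by linarith) hTX
  rw [← hX] at hhl
  have hs1 := small_realW hd hB hn (T := T) (by linarith)
  have hs2 := small_realW hd hB hn (T := 2) (by norm_num)
  rw [← hX] at hs1 hs2
  -- powers
  have hpow : ∀ x y : ℝ, x ≤ y → X ^ x ≤ X ^ y := fun x y h =>
    Real.rpow_le_rpow_of_exponent_le ha1 h
  have e1 : 4 / T ≤ 4 * X ^ (-(b / 8)) := by
    have h1 : 1 / T = X ^ (-(1 / 2) : ℝ) := by
      rw [hTdef, Real.rpow_neg ha0.le, one_div]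
    have h2 : 4 / T = 4 * (1 / T) := by ring
    rw [h2, h1]
    exact mul_le_mul_of_nonneg_left (hpow _ _ (by linarith)) (by norm_num)
  have e2 : ((T + 2) / X) ^ b ≤ 2 * X ^ (-(b / 2)) := by
    have h1 : (T + 2) / X ≤ 2 * X ^ (-(1 / 2) : ℝ) := by
      have h2 : X ^ (-(1 / 2) : ℝ) = T / X := by
        rw [eq_div_iff ha0.ne', hTdef, ← Real.rpow_add_one ha0.ne']
        norm_num
      rw [h2, mul_div_assoc']
      exact div_le_div_of_nonneg_right (by linarith) ha0.le
    have h3 : 0 ≤ (T + 2) / X := by positivity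
    refine (Real.rpow_le_rpow h3 h1 hb.le).trans ?_
    rw [Real.mul_rpow (by norm_num) (Real.rpow_nonneg ha0.le _), ← Real.rpow_mul ha0.le]
    have h4 : (2 : ℝ) ^ b ≤ 2 := by
      calc (2 : ℝ) ^ b ≤ 2 ^ (1 : ℝ) := Real.rpow_le_rpow_of_exponent_le (by norm_num) hb1
        _ = 2 := Real.rpow_one _
    have h5 : -(1 / 2) * b = -(b / 2) := by ring
    rw [h5]
    exact mul_le_mul_of_nonneg_right h4 (Real.rpow_nonneg ha0.le _)
  have e3 : (((2 : ℝ) + 2) / X) ^ b ≤ 4 * X ^ (-b) := by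
    have h1 : ((2 : ℝ) + 2) / X = 4 * X ^ (-1 : ℝ) := by
      rw [Real.rpow_neg_one]
      ring
    rw [h1, Real.mul_rpow (by norm_num) (Real.rpow_nonneg ha0.le _), ← Real.rpow_mul ha0.le]
    have h4 : (4 : ℝ) ^ b ≤ 4 := by
      calc (4 : ℝ) ^ b ≤ 4 ^ (1 : ℝ) := Real.rpow_le_rpow_of_exponent_le (by norm_num) hb1
        _ = 4 := Real.rpow_one _
    have h5 : (-1 : ℝ) * b = -b := by ring
    rw [h5]
    exact mul_le_mul_of_nonneg_right h4 (Real.rpow_nonneg ha0.le _)
  -- first error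
  have f1 : Real.log X * (volume : Measure T2).real {z | |vw d ω z| < T} ≤ 8 * B / b * X ^ (-(b / 8)) := by
    calc Real.log X * (volume : Measure T2).real {z | |vw d ω z| < T} ≤
        (4 / b * X ^ (b / 4)) * (B * (2 * X ^ (-(b / 2)))) := by
          refine mul_le_mul hlog (hs1.trans (mul_le_mul_of_nonneg_left e2 (by linarith)))
            measureReal_nonneg (by positivity)
      _ = 8 * B / b * (X ^ (b / 4) * X ^ (-(b / 2))) := by ring
      _ = 8 * B / b * X ^ (b / 4 + -(b / 2)) := by rw [Real.rpow_add ha0]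
      _ ≤ 8 * B / b * X ^ (-(b / 8)) :=
          mul_le_mul_of_nonneg_left (hpow _ _ (by linarith)) (by positivity)
  -- second error
  have f2 : (m : ℝ) * (3 * Real.log X) * (volume : Measure T2).real {z | |vw d ω z| < 2} ≤ 48 * B / b * X ^ (-(b / 8)) := by
    calc (m : ℝ) * (3 * Real.log X) * (volume : Measure T2).real {z | |vw d ω z| < 2} ≤
        (X ^ (b / 8) * (3 * (4 / b * X ^ (b / 4)))) * (B * (4 * X ^ (-b))) := by
          refine mul_le_mul (mul_le_mul hm (mul_le_mul_of_nonneg_left hlog (by norm_num))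
            (by positivity) (by positivity)) (hs2.trans (mul_le_mul_of_nonneg_left e3 (by linarith)))
            measureReal_nonneg (by positivity)
      _ = 48 * B / b * (X ^ (b / 8) * X ^ (b / 4) * X ^ (-b)) := by ring
      _ = 48 * B / b * X ^ (b / 8 + b / 4 + -b) := by rw [Real.rpow_add ha0, Real.rpow_add ha0]
      _ ≤ 48 * B / b * X ^ (-(b / 8)) :=
          mul_le_mul_of_nonneg_left (hpow _ _ (by linarith)) (by positivity)
  refine le_trans (mul_le_mul_of_nonneg_left ?_ (Nat.cast_nonneg m)) hi1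
  have h6 : (4 + 56 * B / b) * X ^ (-(b / 8)) = 4 * X ^ (-(b / 8)) + 8 * B / b * X ^ (-(b / 8)) +
      48 * B / b * X ^ (-(b / 8)) := by ring
  rw [h6]
  linarith

/-! ### the mean defects -/

private theorem le_one (E : Set ℝ) : (volume.restrict (Ico (0 : ℝ) 1)) E ≤ 1 := by
  have : IsProbabilityMeasure (volume.restrict (Ico (0 : ℝ) 1)) :=
    ⟨by rw [Measure.restrict_apply MeasurableSet.univ, univ_inter, Real.volume_Ico]; norm_num⟩
  exact prob_le_one

private theorem log_le' {u b : ℝ} (hu : 0 ≤ u) (hb : 0 < b) (hb1 : b ≤ 1) :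
    Real.log (1 + u) ≤ 2 / b * u ^ (b / 2) := by
  have h1 : 0 < 1 + u := by linarith
  have h2 : Real.log ((1 + u) ^ (b / 2)) ≤ (1 + u) ^ (b / 2) - 1 :=
    Real.log_le_sub_one_of_pos (Real.rpow_pos_of_pos h1 _)
  rw [Real.log_rpow h1] at h2
  have h3 : (1 + u) ^ (b / 2) ≤ 1 ^ (b / 2) + u ^ (b / 2) :=
    Real.rpow_add_le_add_rpow (by norm_num) hu (by linarith) (by linarith)
  rw [Real.one_rpow] at h3
  have h4 : b / 2 * Real.log (1 + u) ≤ u ^ (b / 2) := by linarith
  have h5 : Real.log (1 + u) = 2 / b * (b / 2 * Real.log (1 + u)) := by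
    field_simp
  rw [h5]
  gcongr

private theorem zero_setW {ω : Om} {B b : ℝ} (hb : 0 < b) (hn : Nw d ω B b) :
    (volume.restrict (Ico (0 : ℝ) 1)) {x : ℝ | d.p2 ω x = 0} = 0 := by
  have h1 : ∀ δ : ℝ, 0 < δ → (volume.restrict (Ico (0 : ℝ) 1)) {x : ℝ | d.p2 ω x = 0} ≤
      ENNReal.ofReal (B * δ ^ b) := by
    intro δ hδ
    refine (measure_mono ?_).trans (nw_restr hn hδ)
    intro x hx
    simp only [mem_ofPred_eq] at hx ⊢
    rw [hx, abs_zero]; exact hδ
  have h2 : Tendsto (fun δ : ℝ => ENNReal.ofReal (B * δ ^ b)) (𝓝[>] 0) (𝓝 (ENNReal.ofReal (B * 0 ^ b))) := by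
    refine (ENNReal.continuous_ofReal.tendsto _).comp ?_
    refine Tendsto.const_mul _ ?_
    exact ((Real.continuousAt_rpow_const 0 b (Or.inr hb.le)).tendsto).mono_left nhdsWithin_le_nhds
  rw [Real.zero_rpow hb.ne', mul_zero, ENNReal.ofReal_zero] at h2
  refine le_antisymm ?_ bot_le
  refine ge_of_tendsto h2 ?_
  filter_upwards [self_mem_nhdsWithin] with δ hδ using h1 δ hδ

private theorem layerW (hd : d.Ok) {ω : Om} {B b : ℝ} (hB : 1 ≤ B) (hb : 0 < b) (hn : Nw d ω B b) :
    ∫⁻ x in Ico (0 : ℝ) 1, ENNReal.ofReal (|d.p2 ω x| ^ (-(b / 2))) ≤ ENNReal.ofReal (1 + B) := by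
  set μ := volume.restrict (Ico (0 : ℝ) 1) with hμ
  have hm : Measurable fun x : ℝ => |d.p2 ω x| ^ (-(b / 2)) :=
    ((meas_p2 hd ω).abs).pow_const _
  rw [lintegral_eq_lintegral_meas_lt μ (Eventually.of_forall fun x => Real.rpow_nonneg (abs_nonneg _) _)
    hm.aemeasurable]
  have hsplit : Ioi (0 : ℝ) = Ioc 0 1 ∪ Ioi 1 := (Ioc_union_Ioi_eq_Ioi (by norm_num)).symm
  rw [hsplit, lintegral_union measurableSet_Ioi (by
    rw [Set.disjoint_left]; intro x hx hx2; exact absurd hx.2 (not_le.2 hx2))]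
  rw [ENNReal.ofReal_add (by norm_num) (by linarith)]
  refine add_le_add ?_ ?_
  · calc ∫⁻ t in Ioc (0 : ℝ) 1, μ {a | t < |d.p2 ω a| ^ (-(b / 2))}
        ≤ ∫⁻ _t in Ioc (0 : ℝ) 1, 1 := lintegral_mono fun t => le_one _
      _ = ENNReal.ofReal 1 := by
          rw [setLIntegral_one, Real.volume_Ioc]; norm_num
  · have h1 : ∀ t ∈ Ioi (1 : ℝ), μ {a | t < |d.p2 ω a| ^ (-(b / 2))} ≤ ENNReal.ofReal (B * t ^ (-2 : ℝ)) := by
      intro t ht
      have ht0 : (0 : ℝ) < t := lt_trans (by norm_num) ht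
      have hδ : 0 < t ^ (-(2 / b)) := Real.rpow_pos_of_pos ht0 _
      refine (measure_mono ?_).trans ((nw_restr hn hδ).trans (ENNReal.ofReal_le_ofReal ?_))
      · intro q hq
        simp only [mem_ofPred_eq] at hq ⊢
        by_contra hcon
        push Not at hcon
        have h3 : |d.p2 ω q| ^ (-(b / 2)) ≤ (t ^ (-(2 / b))) ^ (-(b / 2)) :=
          Real.rpow_le_rpow_of_nonpos hδ hcon (by linarith)
        rw [← Real.rpow_mul ht0.le, show -(2 / b) * -(b / 2) = 1 by field_simp, Real.rpow_one] at h3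
        linarith
      · rw [← Real.rpow_mul ht0.le, show -(2 / b) * b = -2 by field_simp]
    calc ∫⁻ t in Ioi (1 : ℝ), μ {a | t < |d.p2 ω a| ^ (-(b / 2))}
        ≤ ∫⁻ t in Ioi (1 : ℝ), ENNReal.ofReal (B * t ^ (-2 : ℝ)) :=
          setLIntegral_mono' measurableSet_Ioi h1
      _ = ENNReal.ofReal (∫ t in Ioi (1 : ℝ), B * t ^ (-2 : ℝ)) := by
          rw [ofReal_integral_eq_lintegral_ofReal]
          · exact (integrableOn_Ioi_rpow_of_lt (by norm_num) (by norm_num)).const_mul B
          · filter_upwards [ae_restrict_mem measurableSet_Ioi] with t ht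
            have ht0 : (0 : ℝ) < t := lt_trans (by norm_num) ht
            positivity
      _ ≤ ENNReal.ofReal B := by
          refine ENNReal.ofReal_le_ofReal ?_
          rw [integral_const_mul, integral_Ioi_rpow_of_lt (by norm_num) (by norm_num)]
          norm_num

/-- B7: the defect of the mean logarithm for one noise. -/
theorem jdW {d : Dat} (hd : d.Ok) {B b : ℝ} (hB : 1 ≤ B) (hb : 0 < b) (hb1 : b ≤ 1) {ω : Om} (hn : Nw d ω B b) :
    Jd d ω ≤ ENNReal.ofReal (2 / b * 4 ^ (b / 2) * (1 + B) * |d.a| ^ (-(b / 2))) := by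
  set μ := volume.restrict (Ico (0 : ℝ) 1) with hμ
  have ha : 0 < |d.a| := lt_of_lt_of_le (by norm_num) hd.ha
  have h2 : ∀ᵐ x ∂μ, ll (d.a * d.p2 ω x) ≤
      ENNReal.ofReal (2 / b * 4 ^ (b / 2) * |d.a| ^ (-(b / 2))) *
        ENNReal.ofReal (|d.p2 ω x| ^ (-(b / 2))) := by
    have h3 : ∀ᵐ x ∂μ, d.p2 ω x ≠ 0 := by
      rw [ae_iff]
      simp only [ne_eq, not_not]
      exact zero_setW hb hn
    filter_upwards [h3] with x hx
    have hne : d.a * d.p2 ω x ≠ 0 := mul_ne_zero (abs_pos.1 ha) hx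
    unfold ll
    rw [if_neg hne, ← ENNReal.ofReal_mul (by positivity)]
    refine ENNReal.ofReal_le_ofReal ?_
    have hp : 0 < |d.p2 ω x| := abs_pos.2 hx
    refine (log_le' (by positivity) hb hb1).trans (le_of_eq ?_)
    rw [abs_mul, Real.div_rpow (by norm_num) (by positivity), Real.mul_rpow ha.le hp.le,
      Real.rpow_neg ha.le, Real.rpow_neg hp.le]
    field_simp
  calc Jd d ω = ∫⁻ x, ll (d.a * d.p2 ω x) ∂μ := rfl
    _ ≤ ∫⁻ x, ENNReal.ofReal (2 / b * 4 ^ (b / 2) * |d.a| ^ (-(b / 2))) *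
        ENNReal.ofReal (|d.p2 ω x| ^ (-(b / 2))) ∂μ := lintegral_mono_ae h2
    _ = ENNReal.ofReal (2 / b * 4 ^ (b / 2) * |d.a| ^ (-(b / 2))) *
        ∫⁻ x, ENNReal.ofReal (|d.p2 ω x| ^ (-(b / 2))) ∂μ := by
        rw [lintegral_const_mul']
        exact ENNReal.ofReal_ne_top
    _ ≤ ENNReal.ofReal (2 / b * 4 ^ (b / 2) * |d.a| ^ (-(b / 2))) * ENNReal.ofReal (1 + B) := by
        gcongr
        exact layerW hd hB hb hn
    _ = ENNReal.ofReal (2 / b * 4 ^ (b / 2) * (1 + B) * |d.a| ^ (-(b / 2))) := by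
        rw [← ENNReal.ofReal_mul (by positivity)]
        congr 1
        ring

/-- B7: the measure of the set where the second derivative is small, for one noise. -/
theorem kdW {d : Dat} (hd : d.Ok) {B b : ℝ} {ω : Om} (hn : Nw d ω B b) :
    Kd d ω ≤ ENNReal.ofReal (B * |d.a| ^ (-(d.s / 4 * b))) := by
  have ha : 0 < |d.a| := lt_of_lt_of_le (by norm_num) hd.ha
  have hδ : 0 < |d.a| ^ (-(d.s / 4)) := Real.rpow_pos_of_pos ha _
  have h1 := hn _ hδ
  rw [← Real.rpow_mul ha.le, show -(d.s / 4) * b = -(d.s / 4 * b) by ring] at h1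
  exact h1

end Pool.Agent.Helper63.AP
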